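import Pool.Agent.GSR.Third
import Pool.Agent.GSR.Map
import Pool.Agent.GSN.Gen
import Pool.Agent.GSX.SqKf

set_option autoImplicit false

/-!
# GSF: the discriminant of a type O datum is not a square

`D` a type O datum over `ℂ` with `det B ≠ 0` and `B, E, 1, N` linearly independent, and `c 0`,
`c 1` generators of `K = ℂ(s, t)`. Then `s2 c = disc B (E - c 0 - c 1 N)` is not a square in `K`.

`disc B` is a quadratic form on the space of matrices with polar form `pol B` and radical `⟨B⟩`.
There is `W = y 0 + y 1 N`, not zero, with `disc B W = 0`. If `s2 c` is a square, then (`c` is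
algebraically independent and the ring of polynomials is normal) `disc B (E - x 0 - x 1 N + λ W)` is
the square of a polynomial in `λ` for all complex `x`, so `pol B (E - x 0 - x 1 N) W = 0`, and `W`
is in the radical.
-/

noncomputable section

namespace Pool.Agent.GSF

open Matrix GSR

/-- the polar form of the quadratic form `disc B` -/
def pol {F : Type} [CommRing F] (B Z W : Matrix (Fin 2) (Fin 2) F) : F :=
  2 * mix B Z * mix B W - 4 * B.det * mix Z W

theorem disc_add {F : Type} [CommRing F] (B Z W : Matrix (Fin 2) (Fin 2) F) (l : F) :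
    disc B (Z + l • W) = disc B Z + pol B Z W * l + disc B W * l ^ 2 := by
  simp only [disc, pol, mix, Matrix.det_fin_two, Matrix.add_apply, Matrix.smul_apply, smul_eq_mul]
  ring

theorem disc_smul {F : Type} [CommRing F] (B W : Matrix (Fin 2) (Fin 2) F) (l : F) :
    disc B (l • W) = l ^ 2 * disc B W := by
  simp only [disc, mix, Matrix.det_fin_two, Matrix.smul_apply, smul_eq_mul]
  ring

/-- the polar form as a functional -/
def polL (B W : Matrix (Fin 2) (Fin 2) ℂ) : Matrix (Fin 2) (Fin 2) ℂ →ₗ[ℂ] ℂ where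
  toFun Z := pol B Z W
  map_add' Z Z' := by
    simp only [pol, mix, Matrix.add_apply]
    ring
  map_smul' a Z := by
    simp only [pol, mix, Matrix.smul_apply, smul_eq_mul, RingHom.id_apply]
    ring

/-- the radical of `disc B` -/
theorem pol_rad {B W : Matrix (Fin 2) (Fin 2) ℂ} (hB : B.det ≠ 0) (h : ∀ Z, pol B Z W = 0) :
    W = (mix B W / (2 * B.det)) • B := by
  have h1 : ∀ i j, W i j = mix B W / (2 * B.det) * B i j := by
    intro i j
    rw [div_mul_eq_mul_div, eq_div_iff (mul_ne_zero two_ne_zero hB)]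
    fin_cases i <;> fin_cases j
    · have := h !![0, 0; 0, 1]
      simp [pol, mix] at this ⊢
      linear_combination (-1 / 2 : ℂ) * this
    · have := h !![0, 0; 1, 0]
      simp [pol, mix] at this ⊢
      linear_combination (1 / 2 : ℂ) * this
    · have := h !![0, 1; 0, 0]
      simp [pol, mix] at this ⊢
      linear_combination (1 / 2 : ℂ) * this
    · have := h !![1, 0; 0, 0]
      simp [pol, mix] at this ⊢
      linear_combination (-1 / 2 : ℂ) * this
  ext i j
  rw [Matrix.smul_apply, smul_eq_mul, ← h1]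

theorem pol_self {F : Type} [CommRing F] (B W : Matrix (Fin 2) (Fin 2) F) : pol B B W = 0 := by
  simp only [pol, mix, Matrix.det_fin_two]
  ring

/-- an isotropic vector in the span of two matrices -/
theorem exists_iso (B M N : Matrix (Fin 2) (Fin 2) ℂ) :
    ∃ y : Fin 2 → ℂ, y ≠ 0 ∧ disc B (y 0 • M + y 1 • N) = 0 := by
  by_cases ha : disc B M = 0
  · refine ⟨![1, 0], ?_, ?_⟩
    · intro h
      have := congrFun h 0
      simp at this
    · simp [ha]
  · obtain ⟨s, hs⟩ := IsAlgClosed.exists_pow_nat_eq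
      (discrim (disc B M) (pol B N M) (disc B N)) (n := 2) two_pos
    obtain ⟨z, hz⟩ := exists_quadratic_eq_zero ha ⟨s, by rw [← hs, pow_two]⟩
    refine ⟨![z, 1], ?_, ?_⟩
    · intro h
      have := congrFun h 1
      simp at this
    · have h1 : (![z, 1] : Fin 2 → ℂ) 0 • M + (![z, 1] : Fin 2 → ℂ) 1 • N = N + z • M := by
        simp [add_comm]
      rw [h1, disc_add]
      linear_combination hz

/-- a polynomial of degree at most two with leading coefficient zero which is a square -/
theorem sq_poly {R : Polynomial ℂ} {a b : ℂ}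
    (h : R ^ 2 = Polynomial.C a + Polynomial.C b * Polynomial.X) : b = 0 := by
  have h1 : (R ^ 2).natDegree ≤ 1 := by
    rw [h, add_comm]
    exact Polynomial.natDegree_linear_le
  rw [Polynomial.natDegree_pow] at h1
  have h2 : R.natDegree = 0 := by omega
  rw [Polynomial.natDegree_eq_zero] at h2
  obtain ⟨r, rfl⟩ := h2
  have h3 := congrArg (fun p => Polynomial.coeff p 1) h
  simp only [← Polynomial.C_pow, Polynomial.coeff_add, Polynomial.coeff_C_mul,
    Polynomial.coeff_X_one, mul_one, Polynomial.coeff_C_of_ne_zero one_ne_zero, zero_add] at h3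
  exact h3.symm

/-- the algebraic part: `disc B (E - x 0 - x 1 N)` is not the square of a polynomial -/
theorem s2_poly (D : Dat ℂ) (hB : D.B.det ≠ 0) (hli : LinearIndependent ℂ ![D.B, D.E, 1, D.N])
    (P : MvPolynomial (Fin 2) ℂ)
    (hP : P ^ 2 = (D.map MvPolynomial.C).s2 (fun i => MvPolynomial.X i)) : False := by
  obtain ⟨y, hy, hy0⟩ := exists_iso D.B 1 D.N
  set W := y 0 • (1 : Matrix (Fin 2) (Fin 2) ℂ) + y 1 • D.N with hW
  have key : ∀ x : Fin 2 → ℂ, pol D.B (D.Z x) W = 0 := by
    intro x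
    set ev : MvPolynomial (Fin 2) ℂ →+* Polynomial ℂ := MvPolynomial.eval₂Hom Polynomial.C
      (fun i => Polynomial.C (x i) - Polynomial.C (y i) * Polynomial.X) with hev
    have h1 := congrArg ev hP
    have h2 : ev ((D.map MvPolynomial.C).s2 (fun i => MvPolynomial.X i)) =
        (D.map Polynomial.C).s2 (fun i => Polynomial.C (x i) -
          Polynomial.C (y i) * Polynomial.X) := by
      have h3 := map_disc ev (D.map (MvPolynomial.C : ℂ → MvPolynomial (Fin 2) ℂ)).B
        ((D.map (MvPolynomial.C : ℂ → MvPolynomial (Fin 2) ℂ)).Z fun i => MvPolynomial.X i)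
      rw [← Dat.map_Z] at h3
      have h4 : ((D.map (MvPolynomial.C : ℂ → MvPolynomial (Fin 2) ℂ)).map ev) =
          D.map Polynomial.C := by
        have h5 : ∀ z : ℂ, ev (MvPolynomial.C z) = Polynomial.C z := by
          intro z
          rw [hev, MvPolynomial.coe_eval₂Hom, MvPolynomial.eval₂_C]
        simp only [Dat.map, Matrix.map_map, Function.comp_def, h5]
      have h6 : (fun i => ev (MvPolynomial.X i)) = fun i => Polynomial.C (x i) -
          Polynomial.C (y i) * Polynomial.X := by
        funext i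
        rw [hev, MvPolynomial.coe_eval₂Hom, MvPolynomial.eval₂_X]
      rw [h6, h4] at h3
      have h7 : (D.map (MvPolynomial.C : ℂ → MvPolynomial (Fin 2) ℂ)).B.map ev =
          (D.map Polynomial.C).B := by
        rw [← h4]
        rfl
      rw [h7] at h3
      exact h3.symm
    rw [h2, map_pow] at h1
    have h3 : (D.map Polynomial.C).s2 (fun i => Polynomial.C (x i) -
        Polynomial.C (y i) * Polynomial.X) =
        Polynomial.C (disc D.B (D.Z x)) + Polynomial.C (pol D.B (D.Z x) W) * Polynomial.X +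
          Polynomial.C (disc D.B W) * Polynomial.X ^ 2 := by
      have h4 : (D.map Polynomial.C).Z (fun i => Polynomial.C (x i) -
          Polynomial.C (y i) * Polynomial.X) =
          (D.Z x).map Polynomial.C + (Polynomial.X : Polynomial ℂ) • W.map Polynomial.C := by
        refine Matrix.ext fun i j => ?_
        fin_cases i <;> fin_cases j <;> simp [Dat.Z, Dat.map, hW] <;> ring
      have h5 : pol (D.B.map Polynomial.C) ((D.Z x).map Polynomial.C) (W.map Polynomial.C) =
          Polynomial.C (pol D.B (D.Z x) W) := by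
        have h8 : (Polynomial.C (2 : ℂ)) = 2 := Polynomial.C_ofNat 2
        have h9 : (Polynomial.C (4 : ℂ)) = 4 := Polynomial.C_ofNat 4
        simp only [pol, map_mix, map_det', map_sub, map_mul, h8, h9]
      have h6 : (D.map Polynomial.C).B = D.B.map Polynomial.C := rfl
      rw [Dat.s2, h4, disc_add, h6, h5, map_disc, map_disc]
    rw [h3, hy0, Polynomial.C_0, zero_mul, add_zero] at h1
    exact sq_poly h1
  -- `W` is in the radical
  have hE : pol D.B D.E W = 0 := by
    have := key 0
    simpa [Dat.Z] using this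
  have hZ1 : pol D.B 1 W = 0 := by
    have h1 : polL D.B W (D.Z ![1, 0]) = 0 := key ![1, 0]
    have h2 : D.Z ![1, 0] = D.E - 1 := by simp [Dat.Z]
    have h3 : polL D.B W D.E = 0 := hE
    rw [h2, map_sub, h3, zero_sub, neg_eq_zero] at h1
    exact h1
  have hZN : pol D.B D.N W = 0 := by
    have h1 : polL D.B W (D.Z ![0, 1]) = 0 := key ![0, 1]
    have h2 : D.Z ![0, 1] = D.E - D.N := by simp [Dat.Z]
    have h3 : polL D.B W D.E = 0 := hE
    rw [h2, map_sub, h3, zero_sub, neg_eq_zero] at h1
    exact h1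
  have hspan : Submodule.span ℂ (Set.range ![D.B, D.E, 1, D.N]) = ⊤ := by
    apply hli.span_eq_top_of_card_eq_finrank
    simp [Module.finrank_matrix]
  have hall : ∀ Z, pol D.B Z W = 0 := by
    intro Z
    have h1 : Submodule.span ℂ (Set.range ![D.B, D.E, 1, D.N]) ≤ LinearMap.ker (polL D.B W) := by
      rw [Submodule.span_le]
      rintro _ ⟨i, rfl⟩
      fin_cases i
      · exact pol_self D.B W
      · exact hE
      · exact hZ1
      · exact hZN
    rw [hspan] at h1
    exact h1 (Submodule.mem_top (x := Z))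
  have hrad := pol_rad hB hall
  rw [Fintype.linearIndependent_iff] at hli
  have h1 := hli ![-(mix D.B W / (2 * D.B.det)), 0, y 0, y 1] (by
    simp only [Fin.sum_univ_four]
    change (-(mix D.B W / (2 * D.B.det))) • D.B + (0 : ℂ) • D.E +
      y 0 • (1 : Matrix (Fin 2) (Fin 2) ℂ) + y 1 • D.N = 0
    rw [zero_smul, add_zero, neg_smul, add_assoc, ← hW, neg_add_eq_zero]
    exact hrad.symm)
  apply hy
  funext i
  fin_cases i
  · exact h1 2
  · exact h1 3

/-- The discriminant is not a square in `K`. -/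
theorem s2_nsq (D : Dat ℂ) (hB : D.B.det ≠ 0) (hli : LinearIndependent ℂ ![D.B, D.E, 1, D.N])
    {c : Fin 2 → GSX.Sq.Kf} (hc : IntermediateField.adjoin ℂ (Set.range c) = ⊤) :
    ¬IsSquare ((D.map (algebraMap ℂ GSX.Sq.Kf)).s2 c) := by
  rintro ⟨f, hf⟩
  -- `c` is algebraically independent
  have hX : AlgebraicIndependent ℂ (fun i : Fin 2 =>
      algebraMap GSX.Sq.S2 GSX.Sq.Kf (MvPolynomial.X i)) := by
    have h1 : (MvPolynomial.aeval fun i : Fin 2 =>
        algebraMap GSX.Sq.S2 GSX.Sq.Kf (MvPolynomial.X i) : GSX.Sq.S2 →ₐ[ℂ] GSX.Sq.Kf) =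
        IsScalarTower.toAlgHom ℂ GSX.Sq.S2 GSX.Sq.Kf := by
      ext i
      simp
    rw [AlgebraicIndependent, h1]
    exact IsFractionRing.injective GSX.Sq.S2 GSX.Sq.Kf
  have hind : AlgebraicIndependent ℂ c := GSN.ind_of_top hX hc
  set g : GSX.Sq.S2 →ₐ[ℂ] GSX.Sq.Kf := MvPolynomial.aeval c with hg
  have hginj : Function.Injective g := hind
  set σ : GSX.Sq.Kf →ₐ[ℂ] GSX.Sq.Kf := IsFractionRing.liftAlgHom hginj with hσ
  have hσg : ∀ p : GSX.Sq.S2, σ (algebraMap GSX.Sq.S2 GSX.Sq.Kf p) = g p := by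
    intro p
    rw [hσ, IsFractionRing.liftAlgHom_apply]
    exact IsFractionRing.lift_algebraMap hginj p
  have hsurj : ∀ z, ∃ z', σ z' = z := by
    intro z
    have hz : z ∈ IntermediateField.adjoin ℂ (Set.range c) := by
      rw [hc]
      trivial
    have h1 : IntermediateField.adjoin ℂ (Set.range c) ≤ σ.fieldRange := by
      rw [IntermediateField.adjoin_le_iff]
      rintro _ ⟨i, rfl⟩
      refine ⟨algebraMap GSX.Sq.S2 GSX.Sq.Kf (MvPolynomial.X i), ?_⟩
      change σ _ = _
      rw [hσg, hg, MvPolynomial.aeval_X]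
    exact h1 hz
  obtain ⟨f₀, hf₀⟩ := hsurj f
  set Q : GSX.Sq.S2 := (D.map MvPolynomial.C).s2 (fun i => MvPolynomial.X i) with hQ
  have hgQ : g Q = (D.map (algebraMap ℂ GSX.Sq.Kf)).s2 c := by
    have h3 := map_disc (g : GSX.Sq.S2 →+* GSX.Sq.Kf)
      (D.map (MvPolynomial.C : ℂ → MvPolynomial (Fin 2) ℂ)).B
      ((D.map (MvPolynomial.C : ℂ → MvPolynomial (Fin 2) ℂ)).Z fun i => MvPolynomial.X i)
    rw [← Dat.map_Z] at h3
    have h4 : ((D.map (MvPolynomial.C : ℂ → MvPolynomial (Fin 2) ℂ)).map
        (g : GSX.Sq.S2 →+* GSX.Sq.Kf)) = D.map (algebraMap ℂ GSX.Sq.Kf) := by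
      have h5 : ∀ z : ℂ, (g : GSX.Sq.S2 →+* GSX.Sq.Kf) (MvPolynomial.C z) =
          algebraMap ℂ GSX.Sq.Kf z := by
        intro z
        exact MvPolynomial.aeval_C c z
      simp only [Dat.map, Matrix.map_map, Function.comp_def, h5]
    have h6 : (fun i => (g : GSX.Sq.S2 →+* GSX.Sq.Kf) (MvPolynomial.X i)) = c := by
      funext i
      exact MvPolynomial.aeval_X c i
    rw [h6, h4] at h3
    have h7 : (D.map (MvPolynomial.C : ℂ → MvPolynomial (Fin 2) ℂ)).B.map
        (g : GSX.Sq.S2 →+* GSX.Sq.Kf) = (D.map (algebraMap ℂ GSX.Sq.Kf)).B := by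
      rw [← h4]
      rfl
    rw [h7] at h3
    exact h3.symm
  have h1 : f₀ ^ 2 = algebraMap GSX.Sq.S2 GSX.Sq.Kf Q := by
    apply σ.toRingHom.injective
    change σ (f₀ ^ 2) = σ _
    rw [map_pow, hf₀, hσg, hgQ, hf, pow_two]
  obtain ⟨P, hP⟩ := IsIntegrallyClosed.exists_algebraMap_eq_of_isIntegral_pow (R := GSX.Sq.S2)
    (x := f₀) two_pos (by rw [h1]; exact isIntegral_algebraMap)
  refine s2_poly D hB hli P ?_
  apply IsFractionRing.injective GSX.Sq.S2 GSX.Sq.Kf
  rw [map_pow, hP, h1]

end Pool.Agent.GSF
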