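import Pool.Agent.GSF.FinJ
import Pool.Agent.GSF.NSqD
import Pool.Agent.GSN.Asm
import Pool.Agent.GSX.GenK2

/-!
# GSF: the J-versions of the final theorem

`linked_rational`: a cubic whose cone (for the pencil `Cub.pen`) is isomorphic to the cone of a
type O datum in general position is rational.
`linked_rational2`: the same with the node pencil `Cub.pen2`.
-/

set_option autoImplicit false

noncomputable section

namespace Pool.Agent.GSF

open MvPolynomial Matrix GSH GSR GSD GSX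

/-- The hypothesis on the third point in the assembly, for a datum in general position. -/
theorem hN_gen (X : Cub ℂ) (hn : X.NonDeg) (hirr : Irreducible X.F) (D : Dat ℂ)
    (hD : GSN.Good D) (hli : LinearIndependent ℂ ![D.B, D.E, 1, D.N]) {c : Fin 2 → KK}
    (hc : IntermediateField.adjoin ℂ (Set.range c) = ⊤)
    (Ω : Type) [Field Ω] [Algebra ℂ Ω] [Algebra KK Ω] [IsScalarTower ℂ KK Ω]
    (x : Fin 6 → Ω) (hx : Gen X x) (v : Fin 6 → Ω) (hv : v ≠ 0)
    (hO : (D.map (algebraMap ℂ Ω)).IsO (fun i => algebraMap KK Ω (c i)) v)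
    (hT : ∀ T : IntermediateField ℂ Ω, (∀ i, algebraMap KK Ω (c i) ∈ T) →
      (∃ (v' : Fin 6 → Ω) (α β : Ω), (∀ i, v' i ∈ T) ∧ ∀ i, v i = α * v' i +
        β * (D.map (algebraMap ℂ Ω)).K (fun i => algebraMap KK Ω (c i)) v' i) → T = ⊤) :
    (D.map (algebraMap ℂ Ω)).NDegH
      ((D.map (algebraMap ℂ Ω)).third (fun i => algebraMap KK Ω (c i)) v) := by
  obtain ⟨_, _, _, _, _, hB, _⟩ := id hD
  exact GSN.hN_of X.F_hom hirr hx.x0 hx.ker D hD hc
    (hx.nsq hn hirr (s2_nsq D hB hli hc)) v hv hO hT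

/-- A cubic whose cone is isomorphic to the cone of a type O datum is rational. -/
theorem linked_rational (X : Cub ℂ) (hn : X.NonDeg) (hirr : Irreducible X.F) (D : Dat ℂ)
    (hD : GSN.Good D) (hli : LinearIndependent ℂ ![D.B, D.E, 1, D.N]) {c : Fin 2 → KK}
    (hc : IntermediateField.adjoin ℂ (Set.range c) = ⊤) {J : Matrix I8 I8 KK}
    (hJ : Linked X.pen D c J) : Pool.Agent.P28.Rational X.F := by
  obtain ⟨_, _, _, _, _, hB, _⟩ := id hD
  exact linked_rational' X hn hirr D hB hc (s2_nsq D hB hli hc)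
    (hN_gen X hn hirr D hD hli hc) hJ

/-- A cubic whose cone (of the node pencil) is isomorphic to the cone of a type O datum is
rational. -/
theorem linked_rational2 (X : Cub ℂ) (hn : X.NonDeg) (hirr : Irreducible X.F)
    (hD2 : ¬ IsSquare X.D2) (D : Dat ℂ)
    (hD : GSN.Good D) (hli : LinearIndependent ℂ ![D.B, D.E, 1, D.N]) {c : Fin 2 → KK}
    (hc : IntermediateField.adjoin ℂ (Set.range c) = ⊤) {J : Matrix I8 I8 KK}
    (hJ : Linked X.pen2 D c J) : Pool.Agent.P28.Rational X.F := by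
  obtain ⟨_, _, _, _, _, hB, _⟩ := id hD
  obtain ⟨Ω, _, _, _, _, x, hx⟩ := exists_gen hn hirr
  have hdX : NSq Ω X.pen2.d := hx.nsq_d2 hn hirr hD2
  have hdD : NSq Ω ((D.map (algebraMap ℂ KK)).s2 c) := hx.nsq hn hirr (s2_nsq D hB hli hc)
  have hD20 : X.D2 ≠ 0 := fun h0 => hD2 (by rw [h0]; exact IsSquare.zero)
  obtain ⟨w, hw, hL, hnd, ⟨θ, hθ, hθw⟩, htop⟩ := hx.partX2 hn hD20
  refine asm X.F_hom hirr hx.x0 hx.ker hx.top X.pen2_isPen hdX hw hL hnd hθ hθw ?_ D hB hc hdD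
    (hN_gen X hn hirr D hD hli hc Ω x hx) hJ.1 (hJ.2 Ω)
  rintro T hT i
  rw [htop T hT]
  trivial

end Pool.Agent.GSF
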