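import Pool.Agent.GSH.Pen
import Pool.Agent.GSR.NDegH
import Pool.Agent.GSD.HD
import Pool.Agent.GSX.Sq
import Pool.Agent.PLN.RatFF

/-!
# GSF: assembly

`K = ℂ(s, t)`. `F` is an irreducible form in six variables, `x` (with `x 0 = 1`) a generic point of
the hypersurface `F = 0` with values in the field `Ω` which it generates over `ℂ`, and `Ω` contains `K`.

`asm2`: `H` is a hermitian pencil over `K` with a point `w` of its cone over `Ω` in general position,
such that `x` is rational over every field over which `w` is rational up to a factor; `D` is a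
type O datum over `ℂ` with parameters `c` which generate `K`; `H₂` is a pencil with the quadratic forms
of `D`; `J` is an isomorphism which maps the cone of `H` to the cone of `H₂`; the third points of the
congruence of lines of `D` are in general position. Then the hypersurface `F = 0` is rational.

`asm`: the same for the cone `WD` of `D`.
-/

set_option autoImplicit false

noncomputable section

namespace Pool.Agent.GSF

open MvPolynomial Matrix GSH GSR GSD

/-- the field `ℂ(s, t)` -/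
abbrev Kf : Type := GSX.Sq.Kf

variable {Ω : Type} [Field Ω] [Algebra ℂ Ω] [Algebra Kf Ω] [IsScalarTower ℂ Kf Ω]

/-- an intermediate field over `ℂ` which contains generators of `K` is an intermediate field
over `K` -/
theorem exists_lift (T : IntermediateField ℂ Ω) (c : Fin 2 → Kf)
    (hc : IntermediateField.adjoin ℂ (Set.range c) = ⊤) (hT : ∀ i, algebraMap Kf Ω (c i) ∈ T) :
    ∃ T' : IntermediateField Kf Ω, ∀ z : Ω, z ∈ T' ↔ z ∈ T := by
  have h1 : ∀ k : Kf, algebraMap Kf Ω k ∈ T := by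
    intro k
    have hk : k ∈ IntermediateField.adjoin ℂ (Set.range c) := by
      rw [hc]
      trivial
    have h2 : IntermediateField.adjoin ℂ (Set.range c) ≤
        T.comap (IsScalarTower.toAlgHom ℂ Kf Ω) := by
      rw [IntermediateField.adjoin_le_iff]
      rintro _ ⟨i, rfl⟩
      exact hT i
    exact h2 hk
  exact ⟨{ T.toSubfield with algebraMap_mem' := h1 }, fun z => Iff.rfl⟩

/-- the datum over `K` and over `Ω` -/
theorem map_map_dat (D : Dat ℂ) :
    (D.map (algebraMap ℂ Kf)).map (algebraMap Kf Ω) = D.map (algebraMap ℂ Ω) := by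
  have h1 : ∀ z : ℂ, algebraMap Kf Ω (algebraMap ℂ Kf z) = algebraMap ℂ Ω z := fun z =>
    (IsScalarTower.algebraMap_apply ℂ Kf Ω z).symm
  unfold Dat.map
  simp only [Dat.mk.injEq, Matrix.map_map]
  refine ⟨?_, ?_, ?_, ?_, ?_, ?_⟩
  · ext i j
    exact h1 _
  · ext i j
    exact h1 _
  · ext i j
    exact h1 _
  · funext i
    exact h1 _
  · funext i
    exact h1 _
  · ext i j
    exact h1 _

/-- The assembly. -/
theorem asm2 {F : MvPolynomial (Fin 6) ℂ} {n : ℕ} (hF : F.IsHomogeneous n) (hirr : Irreducible F)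
    {x : Fin 6 → Ω} (x0 : x 0 = 1)
    (hker : ∀ (G : MvPolynomial (Fin 6) ℂ) (m : ℕ), G.IsHomogeneous m →
      (aeval x G = 0 ↔ F ∣ G))
    (hgen : IntermediateField.adjoin ℂ (Set.range x) = ⊤)
    -- the side of the cubic
    {H : Pen Kf} (hH : H.IsPen) (hHd : NSq Ω H.d) {w : I8 → Ω} (hw : w ∈ H.W Ω)
    (hw0 : pL w ≠ 0) (hnd : ND H.S (pU w)) {θ : Fin 6 → Kf} (hθ : θ ≠ 0)
    (hθw : vK θ ⬝ᵥ pU w = 0)
    (hwx : ∀ T : IntermediateField Kf Ω, (∃ c : Ω, c ≠ 0 ∧ ∀ i, c * w i ∈ T) → ∀ i, x i ∈ T)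
    -- the type O datum
    (D : Dat ℂ) (hB : D.B.det ≠ 0) {c : Fin 2 → Kf}
    (hc : IntermediateField.adjoin ℂ (Set.range c) = ⊤)
    (hds : NSq Ω ((D.map (algebraMap ℂ Kf)).s2 c))
    (hN : ∀ v : Fin 6 → Ω, v ≠ 0 →
      (D.map (algebraMap ℂ Ω)).IsO (fun i => algebraMap Kf Ω (c i)) v →
      (∀ T : IntermediateField ℂ Ω, (∀ i, algebraMap Kf Ω (c i) ∈ T) →
        (∃ (v' : Fin 6 → Ω) (α β : Ω), (∀ i, v' i ∈ T) ∧ ∀ i, v i = α * v' i +
          β * (D.map (algebraMap ℂ Ω)).K (fun i => algebraMap Kf Ω (c i)) v' i) → T = ⊤) →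
      (D.map (algebraMap ℂ Ω)).NDegH
        ((D.map (algebraMap ℂ Ω)).third (fun i => algebraMap Kf Ω (c i)) v))
    -- the second pencil and the isomorphism
    {H₂ : Pen Kf} (h2d : H₂.d = (D.map (algebraMap ℂ Kf)).s2 c)
    (h2S : H₂.S = (hd (D.map (algebraMap ℂ Kf)) c).S)
    (h2W : ∀ w ∈ H₂.W Ω,
      (D.map (algebraMap ℂ Ω)).IsO (fun i => algebraMap Kf Ω (c i)) (pU w))
    {J : Matrix I8 I8 Kf} (hJ : IsUnit J.det)
    (hJW : ∀ w ∈ H.W Ω, pU w ≠ 0 → mK J *ᵥ w ∈ H₂.W Ω) :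
    Pool.Agent.P28.Rational F := by
  set f := algebraMap ℂ Ω with hf
  set D1 := D.map (algebraMap ℂ Kf) with hD1
  set c' : Fin 2 → Ω := fun i => algebraMap Kf Ω (c i) with hc'
  have hDD : D1.map (algebraMap Kf Ω) = D.map f := map_map_dat D
  have hds' : NSq Ω H₂.d := by
    rw [h2d]
    exact hds
  have h2sq : H₂.S * H₂.S = H₂.d • 1 := by
    rw [h2S, h2d]
    exact hd_sq D1 c
  obtain ⟨w', hw', hU', hv0, hvL, hall⟩ := Pen.two (H₂ := H₂) hJ hH hHd h2sq hds'
    hJW hw hw0 hnd hθ hθw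
  set v := pJ J w' with hv
  have hO : (D.map f).IsO c' v := h2W _ (hJW w' hw' hU')
  -- the field generated by a representative of the class of `v`
  have hgenv : ∀ T : IntermediateField ℂ Ω, (∀ i, c' i ∈ T) →
      (∃ (v' : Fin 6 → Ω) (α β : Ω), (∀ i, v' i ∈ T) ∧ ∀ i, v i = α * v' i +
        β * (D.map f).K c' v' i) → ∀ i, x i ∈ T := by
    rintro T hT ⟨v', α, β, hv', hvv⟩
    obtain ⟨T', hT'⟩ := exists_lift T c hc hT
    obtain ⟨e, he, hew⟩ := hall T' v' α β (fun i => (hT' _).2 (hv' i)) (by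
      funext i
      rw [hvv i]
      simp only [sm, Pi.add_apply, Pi.smul_apply, smul_eq_mul]
      rw [h2S, hd_S, hDD])
    intro i
    exact (hT' _).1 (hwx T' ⟨e, he, hew⟩ i)
  have hnd' := hN v hv0 hO fun T hT hv' => by
    rw [eq_top_iff, ← hgen, IntermediateField.adjoin_le_iff]
    rintro _ ⟨i, rfl⟩
    exact hgenv T hT hv' i
  set p := (D.map f).third c' v with hp
  have hs0 : (D.map f).s2 c' ≠ 0 := by
    have h1 := NSq.ne hds
    have h2 : (D.map f).s2 c' = algebraMap Kf Ω (D1.s2 c) := by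
      rw [← hDD]
      unfold Dat.s2
      rw [Dat.map_Z]
      exact map_disc _ _ _
    rw [h2]
    exact h1
  obtain ⟨h5, hr⟩ := r_final (by norm_num : (2 : ℂ) ≠ 0) D hB c' v hs0 hO p hp hnd'
  -- the four generators
  set a : Fin 4 → Ω := fun j => (p 5)⁻¹ * p (Fin.castLE (by norm_num) j) with ha
  have hTp : ∀ i : Fin 6, (i : ℕ) < 4 → (p 5)⁻¹ * p i ∈ IntermediateField.adjoin ℂ (Set.range a) := by
    intro i hi
    refine IntermediateField.subset_adjoin _ _ ⟨⟨i, hi⟩, ?_⟩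
    rw [ha]
    rfl
  obtain ⟨hpT, hcT⟩ := hr _ hTp
  refine PLN.ratFF hF hirr x x0 hker a (fun j => ?_) ?_
  · rw [hgen]
    trivial
  · refine hgenv _ hcT ?_
    -- `v` is a multiple of `p`
    set α := (D.map f).f3 ((D.map f).K c' v) with hα
    set β := (D.map f).s2 c' * (D.map f).f3 v with hβ
    have hpv : p = fun i => α * v i + β * (D.map f).K c' v i := rfl
    have hab : α ≠ 0 ∨ β ≠ 0 := by
      by_contra hcon
      push Not at hcon
      apply h5
      rw [hpv, hcon.1, hcon.2]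
      simp
    have hNn : α ^ 2 - (D.map f).s2 c' * β ^ 2 ≠ 0 := by
      have h2 : (D.map f).s2 c' = algebraMap Kf Ω (D1.s2 c) := by
        rw [← hDD]
        unfold Dat.s2
        rw [Dat.map_Z]
        exact map_disc _ _ _
      rw [h2]
      exact hds.norm hab
    set N := α ^ 2 - (D.map f).s2 c' * β ^ 2 with hNd
    refine ⟨fun i => (p 5)⁻¹ * p i, p 5 * α / N, -(p 5 * β) / N, hpT, fun i => ?_⟩
    have hK : (D.map f).K c' (fun i => (p 5)⁻¹ * p i) i =
        (p 5)⁻¹ * (α * (D.map f).K c' v i + β * ((D.map f).s2 c' * v i)) := by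
      have h1 := KK_add (D.map f).B ((D.map f).Z c') ((D.map f).χ c') ((p 5)⁻¹ * α)
        ((p 5)⁻¹ * β) v ((D.map f).K c' v) i
      have h2 : (fun i => (p 5)⁻¹ * p i) =
          fun i => ((p 5)⁻¹ * α) * v i + ((p 5)⁻¹ * β) * (D.map f).K c' v i := by
        funext i
        rw [hpv]
        ring
      have h3 : (D.map f).K c' (fun i => (p 5)⁻¹ * p i) i =
          (p 5)⁻¹ * α * (D.map f).K c' v i + (p 5)⁻¹ * β * (D.map f).K c' ((D.map f).K c' v) i := by
        rw [h2]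
        exact h1
      rw [h3, Dat.K_K]
      ring
    rw [hK]
    have e1 : p i = α * v i + β * (D.map f).K c' v i := rfl
    have e2 : v i * N = p 5 * α * ((p 5)⁻¹ * p i) +
        -(p 5 * β) * ((p 5)⁻¹ * (α * (D.map f).K c' v i + β * ((D.map f).s2 c' * v i))) := by
      rw [e1, hNd]
      field_simp
      ring
    have e3 : v i = v i * N / N := by rw [mul_div_cancel_right₀ _ hNn]
    refine e3.trans ?_
    rw [e2]
    ring

/-- The assembly, for the cone of the type O datum. -/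
theorem asm {F : MvPolynomial (Fin 6) ℂ} {n : ℕ} (hF : F.IsHomogeneous n) (hirr : Irreducible F)
    {x : Fin 6 → Ω} (x0 : x 0 = 1)
    (hker : ∀ (G : MvPolynomial (Fin 6) ℂ) (m : ℕ), G.IsHomogeneous m →
      (aeval x G = 0 ↔ F ∣ G))
    (hgen : IntermediateField.adjoin ℂ (Set.range x) = ⊤)
    -- the side of the cubic
    {H : Pen Kf} (hH : H.IsPen) (hHd : NSq Ω H.d) {w : I8 → Ω} (hw : w ∈ H.W Ω)
    (hw0 : pL w ≠ 0) (hnd : ND H.S (pU w)) {θ : Fin 6 → Kf} (hθ : θ ≠ 0)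
    (hθw : vK θ ⬝ᵥ pU w = 0)
    (hwx : ∀ T : IntermediateField Kf Ω, (∃ c : Ω, c ≠ 0 ∧ ∀ i, c * w i ∈ T) → ∀ i, x i ∈ T)
    -- the type O datum
    (D : Dat ℂ) (hB : D.B.det ≠ 0) {c : Fin 2 → Kf}
    (hc : IntermediateField.adjoin ℂ (Set.range c) = ⊤)
    (hds : NSq Ω ((D.map (algebraMap ℂ Kf)).s2 c))
    (hN : ∀ v : Fin 6 → Ω, v ≠ 0 →
      (D.map (algebraMap ℂ Ω)).IsO (fun i => algebraMap Kf Ω (c i)) v →
      (∀ T : IntermediateField ℂ Ω, (∀ i, algebraMap Kf Ω (c i) ∈ T) →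
        (∃ (v' : Fin 6 → Ω) (α β : Ω), (∀ i, v' i ∈ T) ∧ ∀ i, v i = α * v' i +
          β * (D.map (algebraMap ℂ Ω)).K (fun i => algebraMap Kf Ω (c i)) v' i) → T = ⊤) →
      (D.map (algebraMap ℂ Ω)).NDegH
        ((D.map (algebraMap ℂ Ω)).third (fun i => algebraMap Kf Ω (c i)) v))
    -- the isomorphism
    {J : Matrix I8 I8 Kf} (hJ : IsUnit J.det)
    (hJW : ∀ w ∈ H.W Ω, pU w ≠ 0 → mK J *ᵥ w ∈ WD (D.map (algebraMap ℂ Kf)) c Ω) :
    Pool.Agent.P28.Rational F := by
  refine asm2 hF hirr x0 hker hgen hH hHd hw hw0 hnd hθ hθw hwx D hB hc hds hN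
    (H₂ := hd (D.map (algebraMap ℂ Kf)) c) rfl rfl (fun w hw => ?_) hJ
    (fun w hw hu => by rw [hd_W]; exact hJW w hw hu)
  rw [hd_W] at hw
  have h1 := hw.1
  rw [map_map_dat] at h1
  exact h1

end Pool.Agent.GSF
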