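import Pool.Agent.GSF.Asm
import Pool.Agent.GSQ.Main
import Pool.Agent.GSQ.XSide

/-!
# GSF: the two quadratic forms of a type O datum are hermitian
-/

set_option autoImplicit false

noncomputable section

namespace Pool.Agent.GSF

open MvPolynomial Matrix GSH GSR GSD GSX GSQ

/-! ### The forms of a type O datum are hermitian -/

section Her

variable {K : Type} [Field K]

theorem mat_add (β γ : (Fin 6 → K) →ₗ[K] (Fin 6 → K) →ₗ[K] K) : mat (β + γ) = mat β + mat γ := by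
  ext i j
  rfl

theorem mat_flip (β : (Fin 6 → K) →ₗ[K] (Fin 6 → K) →ₗ[K] K) : (mat β)ᵀ = mat β.flip := by
  ext i j
  rfl

theorem mat_zero : mat (0 : (Fin 6 → K) →ₗ[K] (Fin 6 → K) →ₗ[K] K) = 0 := by
  ext i j
  rfl

theorem mat_mul_S (D : Dat K) (c : Fin 2 → K) (β : (Fin 6 → K) →ₗ[K] (Fin 6 → K) →ₗ[K] K) :
    mat β * (hd D c).S = mat (β.compl₂ (KL D c)) := by
  ext i j
  have h := bil_sum β (Pi.single i 1) (D.K c (Pi.single j 1))
  have h2 : ∑ i₁, (Pi.single i 1 : Fin 6 → K) i₁ *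
      ∑ j₁, β (Pi.single i₁ 1) (Pi.single j₁ 1) * D.K c (Pi.single j 1) j₁ =
      ∑ j₁, β (Pi.single i 1) (Pi.single j₁ 1) * D.K c (Pi.single j 1) j₁ := by
    rw [Finset.sum_eq_single i]
    · rw [Pi.single_eq_same, one_mul]
    · intro k _ hk
      rw [Pi.single_eq_of_ne hk, zero_mul]
    · intro h
      exact absurd (Finset.mem_univ i) h
  rw [Matrix.mul_apply]
  exact (h.trans h2).symm

theorem S_mul_mat (D : Dat K) (c : Fin 2 → K) (β : (Fin 6 → K) →ₗ[K] (Fin 6 → K) →ₗ[K] K) :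
    (hd D c).Sᵀ * mat β = mat (β.comp (KL D c)) := by
  have h1 : (hd D c).Sᵀ * mat β = (mat β.flip * (hd D c).S)ᵀ := by
    rw [Matrix.transpose_mul, mat_flip]
    rfl
  rw [h1, mat_mul_S, mat_flip]
  rfl

/-- the form `β(u, K v)` is hermitian for an alternating `β` -/
theorem her_of_alt (D : Dat K) (c : Fin 2 → K) (β : (Fin 6 → K) →ₗ[K] (Fin 6 → K) →ₗ[K] K)
    (hβ : ∀ u v, β u v = -β v u) :
    (hd D c).Sᵀ * (mat (β.compl₂ (KL D c)) + (mat (β.compl₂ (KL D c)))ᵀ) +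
      (mat (β.compl₂ (KL D c)) + (mat (β.compl₂ (KL D c)))ᵀ) * (hd D c).S = 0 := by
  rw [mat_flip, ← mat_add, S_mul_mat, mat_mul_S, ← mat_add, ← mat_zero]
  congr 1
  refine LinearMap.ext₂ fun u v => ?_
  have hK : ∀ u, KL D c (KL D c u) = D.s2 c • u := fun u => funext fun i => D.K_K c u i
  change β (KL D c u) (KL D c v) + β v (KL D c (KL D c u)) +
    (β u (KL D c (KL D c v)) + β (KL D c v) (KL D c u)) = 0
  rw [hK, hK, map_smul, map_smul, hβ (KL D c u) (KL D c v), hβ v u]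
  simp only [smul_eq_mul]
  ring

theorem isHer_hd (D : Dat K) (c : Fin 2 → K) : IsHer (hd D c) where
  sq := hd_sq D c
  her := by
    refine Fin.forall_fin_two.2 ⟨?_, ?_⟩
    · exact her_of_alt D c wL fun u v => w_anti u v
    · exact her_of_alt D c (tauL D c) fun u v => tau_anti D c u v

end Her

end Pool.Agent.GSF
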