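import Mathlib

/-!
# Definitions for the theorem on rational cubic fourfolds and twisted K3 surfaces

`K = ℂ(s, t)` is the field of rational functions on the plane.

Pencils. `Pencil F`: an element `d` of the field `F` and two quadratic forms `Q 0`, `Q 1` in six
variables over `F`. In both examples below these are hermitian forms on a space of dimension
three over `L = F(√d)`, and the determinant of `Q 1 - x Q 0` over `L` is a polynomial in `x` of
degree three, which defines the cubic extension `M` of `F`. `Eig H M`: a root `m` of this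
polynomial which generates `M`, and a vector `v` in the kernel. With `e = p'(m) Q 0 (v)`, `p` the
minimal polynomial of `m`, the quaternion algebra `(d, e N(e))` over `M` does not depend on the
choices. `SameTwist`: two pencils have the same `M` and isomorphic quaternion algebras.

Cubic fourfolds. `Cub`: two symmetric `2 × 2` matrices `A`, `B` of linear forms in `X0, …, X5`.
`Cub.F` is the cubic form `pᵀ adj(A) p - qᵀ adj(B) q + λ (det A - det B)`, `p = (X1, X2)`,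
`q = (X3, X4)`, `λ = X5`. `Cub.pencil`: the pencil of the cubic over `K`.

Data. `Dat`: three `2 × 2` matrices `B`, `N`, `E`, two vectors `γ`, `δ` and a matrix `t`, with 56
coefficients (`Dat.coord`). `U = ℂ ^ 6` with the symplectic form `w`. For two parameters `c` there
are the operator `K_c` with `K_c ^ 2 = d` (`Dat.op`, `Dat.sq`) and the alternating form `τ_c`
(`Dat.tau`). `Dat.pencil`: the quadratic forms `w(v, K_c v)` and `τ_c(v, K_c v)` for two
functions `c` in `K`.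
-/

set_option autoImplicit false

noncomputable section

namespace Pool.Agent.TK

open MvPolynomial Matrix
open scoped Quaternion

/-- The field `ℂ(s, t)`. -/
abbrev K : Type := FractionRing (MvPolynomial (Fin 2) ℂ)

/-- The polynomial ring in six variables over `ℂ(s, t)`. -/
abbrev K6 : Type := MvPolynomial (Fin 6) K

/-! ### Pencils of quadratic forms -/

/-- An element `d` of `F` and two quadratic forms in six variables over `F`. -/
structure Pencil (F : Type) [Field F] where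
  /-- the element `d` -/
  d : F
  /-- the quadratic forms -/
  Q : Fin 2 → MvPolynomial (Fin 6) F

/-- An eigenvalue `m` of the pencil which generates the extension `M` of `F`, and an eigenvector `v`
over `M` (the gradient of `Q 1` at `v` is `m` times the gradient of `Q 0`) with `Q 0 (v) ≠ 0`. -/
structure Pencil.Eig {F : Type} [Field F] (H : Pencil F) (M : Type) [Field M] [Algebra F M] where
  /-- the eigenvalue -/
  m : M
  /-- the eigenvector -/
  v : Fin 6 → M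
  gen : IntermediateField.adjoin F {m} = ⊤
  eig : ∀ i, aeval v (pderiv i (H.Q 1)) = m * aeval v (pderiv i (H.Q 0))
  ne : aeval v (H.Q 0) ≠ 0

section

variable {F : Type} [Field F] {H : Pencil F} {M : Type} [Field M] [Algebra F M] (E : H.Eig M)

/-- The number `e = p'(m) Q 0 (v)`, `p` the minimal polynomial of `m`. -/
def Pencil.Eig.e : M := Polynomial.aeval E.m (minpoly F E.m).derivative * aeval E.v (H.Q 0)

/-- The number `c = e N(e)`, `N` the norm of `M` over `F`. -/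
def Pencil.Eig.c : M := E.e * algebraMap F M (Algebra.norm F E.e)

end

/-- The two pencils have the same cubic extension `M` of `F` and isomorphic quaternion algebras
`(d, c)` over `M`. -/
def SameTwist {F : Type} [Field F] (H₁ H₂ : Pencil F) : Prop :=
  ∃ (M : Type) (_ : Field M) (_ : Algebra F M), Module.finrank F M = 3 ∧
    ∃ (E₁ : H₁.Eig M) (E₂ : H₂.Eig M),
      Nonempty (ℍ[M, algebraMap F M H₁.d, E₁.c] ≃ₐ[M] ℍ[M, algebraMap F M H₂.d, E₂.c])

/-! ### Cubic fourfolds -/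

/-- The coefficients of two symmetric `2 × 2` matrices `A`, `B` of linear forms in `X0, …, X5`: the
entries 00, 01, 11 of the coefficients `A_k`, `B_k` of `X k`. -/
structure Cub (R : Type) where
  /-- the entries of `A_k` -/
  a : Fin 6 → Fin 3 → R
  /-- the entries of `B_k` -/
  b : Fin 6 → Fin 3 → R

/-- The same coefficients in the ring `R'`. -/
def Cub.map {R R' : Type} (f : R → R') (X : Cub R) : Cub R' :=
  ⟨fun k i => f (X.a k i), fun k i => f (X.b k i)⟩

/-- The entry `i` of the matrix of linear forms. -/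
def lin (c : Fin 6 → Fin 3 → ℂ) (i : Fin 3) : MvPolynomial (Fin 6) ℂ := ∑ k, C (c k i) * X k

/-- The cubic form `pᵀ adj(A) p - qᵀ adj(B) q + λ (det A - det B)`. -/
def Cub.F (X : Cub ℂ) : MvPolynomial (Fin 6) ℂ :=
  (lin X.a 2 * .X 1 ^ 2 - 2 * lin X.a 1 * (.X 1 * .X 2) + lin X.a 0 * .X 2 ^ 2) -
    (lin X.b 2 * .X 3 ^ 2 - 2 * lin X.b 1 * (.X 3 * .X 4) + lin X.b 0 * .X 4 ^ 2) +
    .X 5 * ((lin X.a 0 * lin X.a 2 - lin X.a 1 ^ 2) - (lin X.b 0 * lin X.b 2 - lin X.b 1 ^ 2))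

/-- The conditions `det A_0 ≠ det B_0`, `A_0 ≠ 0`, `B_0 ≠ 0`. -/
structure Cub.NonDeg (X : Cub ℂ) : Prop where
  det : X.a 0 0 * X.a 0 2 - X.a 0 1 ^ 2 ≠ X.b 0 0 * X.b 0 2 - X.b 0 1 ^ 2
  a0 : X.a 0 ≠ 0
  b0 : X.b 0 ≠ 0

section

variable {R : Type} [CommRing R] (X : Cub R) (s t : R)

/-- The entries 00, 01, 11 of the symmetric matrix `C_k = d adj(B_k) - T A_k T`, where
`T = (t, -s; -s, 1)` and `d = t - s ^ 2`. -/
def Cub.c (k : Fin 6) : Fin 3 → R :=
  ![(t - s ^ 2) * X.b k 2 - (t ^ 2 * X.a k 0 - 2 * s * t * X.a k 1 + s ^ 2 * X.a k 2),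
    -((t - s ^ 2) * X.b k 1) + (s * t * X.a k 0 - (s ^ 2 + t) * X.a k 1 + s * X.a k 2),
    (t - s ^ 2) * X.b k 0 - (s ^ 2 * X.a k 0 - 2 * s * X.a k 1 + X.a k 2)]

/-- Two symmetric matrices `m_0`, `m_1` with `tr(m_j C_0) = 0`. -/
def Cub.m : Fin 2 → Fin 3 → R :=
  ![![-(2 * X.c s t 0 1), X.c s t 0 0, 0], ![-X.c s t 0 2, 0, X.c s t 0 0]]

/-- The trace `g_k = tr(m_j C_k)`. -/
def Cub.g (j : Fin 2) (k : Fin 6) : R :=
  X.m s t j 0 * X.c s t k 0 + 2 * X.m s t j 1 * X.c s t k 1 + X.m s t j 2 * X.c s t k 2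

/-- The quadratic form `H_j` in `u = (p, λ, p', λ')`, where `p = (u 0, u 1)`, `p' = (u 3, u 4)`:
`2 d (m_j(p) - d m_j(p')) - 2 (λ p - d λ' p')ᵀ (1, s; s, t) (g_1, g_2) +
2 d (λ' p - λ p')ᵀ (g_4, -g_3) - 2 d g_5 (λ ^ 2 - d λ' ^ 2)`. -/
def Cub.h (j : Fin 2) (u : Fin 6 → R) : R :=
  2 * (t - s ^ 2) * (X.m s t j 0 * u 0 ^ 2 + 2 * X.m s t j 1 * (u 0 * u 1) +
      X.m s t j 2 * u 1 ^ 2 - (t - s ^ 2) * (X.m s t j 0 * u 3 ^ 2 +
        2 * X.m s t j 1 * (u 3 * u 4) + X.m s t j 2 * u 4 ^ 2)) -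
    2 * ((u 2 * u 0 - (t - s ^ 2) * (u 5 * u 3)) * (X.g s t j 1 + s * X.g s t j 2) +
      (u 2 * u 1 - (t - s ^ 2) * (u 5 * u 4)) * (s * X.g s t j 1 + t * X.g s t j 2)) +
    2 * (t - s ^ 2) * ((u 5 * u 0 - u 2 * u 3) * X.g s t j 4 -
      (u 5 * u 1 - u 2 * u 4) * X.g s t j 3) -
    2 * (t - s ^ 2) * X.g s t j 5 * (u 2 ^ 2 - (t - s ^ 2) * u 5 ^ 2)

end

/-- The two variables `s`, `t`. -/
def var (i : Fin 2) : K := algebraMap (MvPolynomial (Fin 2) ℂ) K (X i)

/-- The pencil over `ℂ(s, t)` of the cubic fourfold: `d = t - s ^ 2` and the forms `H_0`, `H_1`. -/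
def Cub.pencil (X : Cub ℂ) : Pencil K where
  d := var 1 - var 0 ^ 2
  Q := fun j => (X.map (algebraMap ℂ K6)).h (C (var 0)) (C (var 1)) j MvPolynomial.X

/-! ### Data -/

/-- Three `2 × 2` matrices, two vectors of length four and a `6 × 6` matrix. -/
structure Dat (R : Type) where
  /-- the matrix `B` -/
  B : Matrix (Fin 2) (Fin 2) R
  /-- the matrix `N` -/
  N : Matrix (Fin 2) (Fin 2) R
  /-- the matrix `E` -/
  E : Matrix (Fin 2) (Fin 2) R
  /-- the vector `γ` -/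
  γ : Fin 4 → R
  /-- the vector `δ` -/
  δ : Fin 4 → R
  /-- the matrix `t` -/
  t : Matrix (Fin 6) (Fin 6) R

/-- The indices of the 56 coefficients. -/
abbrev Idx : Type := (Fin 3 × Fin 2 × Fin 2) ⊕ (Fin 2 × Fin 4) ⊕ (Fin 6 × Fin 6)

/-- The 56 coefficients. -/
def Dat.coord {R : Type} (D : Dat R) : Idx → R
  | Sum.inl (a, i, j) => (![D.B, D.N, D.E] a) i j
  | Sum.inr (Sum.inl (a, i)) => (![D.γ, D.δ] a) i
  | Sum.inr (Sum.inr (i, j)) => D.t i j

/-- The same coefficients in the ring `R'`. -/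
def Dat.map {R R' : Type} (f : R → R') (D : Dat R) : Dat R' :=
  ⟨D.B.map f, D.N.map f, D.E.map f, fun i => f (D.γ i), fun i => f (D.δ i), D.t.map f⟩

section

variable {R : Type} [CommRing R]

/-- The bilinear form `S · M T'`, where `v = (S, T, x, y)`, `S = (v 0, v 1)`, `T = (v 2, v 3)`. -/
def bl (M : Matrix (Fin 2) (Fin 2) R) (v v' : Fin 6 → R) : R :=
  v 0 * (M 0 0 * v' 2 + M 0 1 * v' 3) + v 1 * (M 1 0 * v' 2 + M 1 1 * v' 3)

/-- The linear form `S · M c' + c'' · M T`, `c = (c', c'')`. -/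
def ln (M : Matrix (Fin 2) (Fin 2) R) (c : Fin 4 → R) (v : Fin 6 → R) : R :=
  v 0 * (M 0 0 * c 0 + M 0 1 * c 1) + v 1 * (M 1 0 * c 0 + M 1 1 * c 1) +
    (c 2 * (M 0 0 * v 2 + M 0 1 * v 3) + c 3 * (M 1 0 * v 2 + M 1 1 * v 3))

/-- The symplectic form `S · T' - S' · T + x y' - x' y`. -/
def w (v v' : Fin 6 → R) : R := bl 1 v v' - bl 1 v' v + (v 4 * v' 5 - v' 4 * v 5)

/-- The mixed determinant: `det (x B + Z) = x ^ 2 det B + x mix B Z + det Z`. -/
def mix (B Z : Matrix (Fin 2) (Fin 2) R) : R :=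
  B 0 0 * Z 1 1 + B 1 1 * Z 0 0 - B 0 1 * Z 1 0 - B 1 0 * Z 0 1

variable (D : Dat R) (c : Fin 2 → R)

/-- The matrix `Z = E - c₀ - c₁ N`. -/
def Dat.Z : Matrix (Fin 2) (Fin 2) R := D.E - c 0 • (1 : Matrix (Fin 2) (Fin 2) R) - c 1 • D.N

/-- The vector `χ = δ - c₁ γ`. -/
def Dat.χ : Fin 4 → R := fun i => D.δ i - c 1 * D.γ i

/-- The discriminant of `det (x B + Z)`. -/
def Dat.sq : R := mix D.B (D.Z c) ^ 2 - 4 * D.B.det * (D.Z c).det

/-- The operator `K_c`: `S ↦ 2 S adj(B) Z - m S`, `T ↦ 2 Z adj(B) T - m T`,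
`x ↦ m x + 2 det(Z) y - 2 ln(adj(Z), χ)`, `y ↦ -2 det(B) x - m y + 2 ln(adj(B), χ)`, where
`m = mix B Z`. Its square is `Dat.sq`. -/
def Dat.op (v : Fin 6 → R) : Fin 6 → R :=
  ![2 * (v 0 * (D.B.adjugate * D.Z c) 0 0 + v 1 * (D.B.adjugate * D.Z c) 1 0) -
      mix D.B (D.Z c) * v 0,
    2 * (v 0 * (D.B.adjugate * D.Z c) 0 1 + v 1 * (D.B.adjugate * D.Z c) 1 1) -
      mix D.B (D.Z c) * v 1,
    2 * ((D.Z c * D.B.adjugate) 0 0 * v 2 + (D.Z c * D.B.adjugate) 0 1 * v 3) -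
      mix D.B (D.Z c) * v 2,
    2 * ((D.Z c * D.B.adjugate) 1 0 * v 2 + (D.Z c * D.B.adjugate) 1 1 * v 3) -
      mix D.B (D.Z c) * v 3,
    mix D.B (D.Z c) * v 4 + 2 * (D.Z c).det * v 5 - 2 * ln (D.Z c).adjugate (D.χ c) v,
    -2 * D.B.det * v 4 - mix D.B (D.Z c) * v 5 + 2 * ln D.B.adjugate (D.χ c) v]

/-- The alternating form `τ_c = τ + c₀ ({N} + x ∧ γ) + c₁ x ∧ (γ(N') - det(N) y)`, where
`τ = ∑ t_ij v_i ∧ v_j`, `{N}` is the alternating form `S · N T' - S' · N T`, and `N' = adj(N)`. -/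
def Dat.tau (v v' : Fin 6 → R) : R :=
  ∑ i, ∑ j, D.t i j * (v i * v' j - v' i * v j) +
    c 0 * (bl D.N v v' - bl D.N v' v + (v 4 * ln 1 D.γ v' - v' 4 * ln 1 D.γ v)) +
    c 1 * (v 4 * (ln D.N.adjugate D.γ v' - D.N.det * v' 5) -
      v' 4 * (ln D.N.adjugate D.γ v - D.N.det * v 5))

end

/-- The pencil over `ℂ(s, t)` of the datum `D` with the parameters `c`: `d` is the number with
`K_c ^ 2 = d`, and the quadratic forms are `w(v, K_c v)` and `τ_c(v, K_c v)`. -/
def Dat.pencil (D : Dat ℂ) (c : Fin 2 → K) : Pencil K where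
  d := (D.map (algebraMap ℂ K)).sq c
  Q := ![w X ((D.map (algebraMap ℂ K6)).op (fun i => C (c i)) X),
    (D.map (algebraMap ℂ K6)).tau (fun i => C (c i)) X
      ((D.map (algebraMap ℂ K6)).op (fun i => C (c i)) X)]

end Pool.Agent.TK
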