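import Pool.Agent.GSF.FinQ
import Pool.Agent.GSN.Delta

/-!
# GSF: the final theorem for data outside a hypersurface

`exists_same_rational`: there is a polynomial `Δ ≠ 0` in the coefficients of a type O datum such that
for every datum with `Δ ≠ 0` a cubic whose pencil of hermitian forms has the same invariants is
rational. `exists_same_rational2`: the same for the node pencil.
-/

set_option autoImplicit false

noncomputable section

namespace Pool.Agent.GSF

open MvPolynomial Matrix GSH GSR GSD GSX GSQ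

/-- **The theorem**, for all data outside a hypersurface. -/
theorem exists_same_rational : ∃ Δ : MvPolynomial GSN.Idx ℂ, Δ ≠ 0 ∧
    ∀ (X : Cub ℂ) (D : Dat ℂ) (c : Fin 2 → KK), X.NonDeg → Irreducible X.F →
      eval (GSN.coord D) Δ ≠ 0 → IntermediateField.adjoin ℂ (Set.range c) = ⊤ →
      SameTwist X.pen (hd (D.map (algebraMap ℂ KK)) c) → Pool.Agent.P28.Rational X.F := by
  obtain ⟨Δ, hΔ, h⟩ := GSN.exists_Delta
  refine ⟨Δ, hΔ, fun X D c hn hirr hD hc hS => ?_⟩
  obtain ⟨hg, hli⟩ := h D hD
  exact same_rational X hn hirr D hg hli hc hS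

/-- The theorem for the node pencil, for all data outside a hypersurface. -/
theorem exists_same_rational2 : ∃ Δ : MvPolynomial GSN.Idx ℂ, Δ ≠ 0 ∧
    ∀ (X : Cub ℂ) (D : Dat ℂ) (c : Fin 2 → KK), X.NonDeg → Irreducible X.F → ¬ IsSquare X.D2 →
      eval (GSN.coord D) Δ ≠ 0 → IntermediateField.adjoin ℂ (Set.range c) = ⊤ →
      SameTwist X.pen2 (hd (D.map (algebraMap ℂ KK)) c) → Pool.Agent.P28.Rational X.F := by
  obtain ⟨Δ, hΔ, h⟩ := GSN.exists_Delta
  refine ⟨Δ, hΔ, fun X D c hn hirr hD2 hD hc hS => ?_⟩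
  obtain ⟨hg, hli⟩ := h D hD
  exact same_rational2 X hn hirr hD2 D hg hli hc hS

end Pool.Agent.GSF
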