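import Pool.Agent.GSF.Stmt
import Pool.Agent.GSF.Asm
import Pool.Agent.GSX.XiNe2
import Pool.Agent.GSX.ExGen

/-!
# GSF: the J-version of the final theorem
-/

set_option autoImplicit false

noncomputable section

namespace Pool.Agent.GSF

open MvPolynomial Matrix GSH GSR GSD GSX

/-- A cubic whose cone is isomorphic to the cone of a type O datum is rational. -/
theorem linked_rational' (X : Cub ℂ) (hn : X.NonDeg) (hirr : Irreducible X.F) (D : Dat ℂ)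
    (hB : D.B.det ≠ 0) {c : Fin 2 → KK} (hc : IntermediateField.adjoin ℂ (Set.range c) = ⊤)
    (hsq : ¬ IsSquare ((D.map (algebraMap ℂ KK)).s2 c))
    (hN : ∀ (Ω : Type) [Field Ω] [Algebra ℂ Ω] [Algebra KK Ω] [IsScalarTower ℂ KK Ω]
      (x : Fin 6 → Ω), Gen X x → ∀ v : Fin 6 → Ω, v ≠ 0 →
      (D.map (algebraMap ℂ Ω)).IsO (fun i => algebraMap KK Ω (c i)) v →
      (∀ T : IntermediateField ℂ Ω, (∀ i, algebraMap KK Ω (c i) ∈ T) →
        (∃ (v' : Fin 6 → Ω) (α β : Ω), (∀ i, v' i ∈ T) ∧ ∀ i, v i = α * v' i +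
          β * (D.map (algebraMap ℂ Ω)).K (fun i => algebraMap KK Ω (c i)) v' i) → T = ⊤) →
      (D.map (algebraMap ℂ Ω)).NDegH
        ((D.map (algebraMap ℂ Ω)).third (fun i => algebraMap KK Ω (c i)) v))
    {J : Matrix I8 I8 KK} (hJ : Linked X.pen D c J) :
    Pool.Agent.P28.Rational X.F := by
  obtain ⟨Ω, _, _, _, _, x, hx⟩ := exists_gen hn hirr
  have hdX : NSq Ω X.pen.d := hx.nsq_dX hn hirr
  have hdD : NSq Ω ((D.map (algebraMap ℂ KK)).s2 c) := hx.nsq hn hirr hsq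
  obtain ⟨w, hw, hwu, hL, hU, hnd, ⟨θ, hθ, hθw⟩, htop⟩ := hx.partX hn.a0
  refine asm X.F_hom hirr hx.x0 hx.ker hx.top (Herm.isPen _) hdX hw hL hnd hθ hθw ?_ D hB hc hdD
    (hN Ω x hx) hJ.1 (hJ.2 Ω)
  rintro T ⟨c', hc', hT⟩ i
  have h1 := htop T c' hc' fun i => hT (Sum.inr i)
  rw [h1]
  trivial

end Pool.Agent.GSF
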