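import Pool.Agent.GSF.FinJ2
import Pool.Agent.GSF.AsmQ

/-!
# GSF: the intrinsic version of the final theorem

`same_rational`: a cubic whose pencil `Cub.pen` has the same invariants as the pencil of a type O
datum in general position is rational.
`same_rational2`: the same for the node pencil `Cub.pen2`.
-/

set_option autoImplicit false

noncomputable section

namespace Pool.Agent.GSF

open MvPolynomial Matrix GSH GSR GSD GSX GSQ

/-- The assembly for a pencil of hermitian forms of the cubic. -/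
theorem same_herm (X : Cub ℂ) (hn : X.NonDeg) (hirr : Irreducible X.F) (D : Dat ℂ)
    (hD : GSN.Good D) (hli : LinearIndependent ℂ ![D.B, D.E, 1, D.N]) {c : Fin 2 → KK}
    (hc : IntermediateField.adjoin ℂ (Set.range c) = ⊤)
    {Ω : Type} [Field Ω] [Algebra ℂ Ω] [Algebra KK Ω] [IsScalarTower ℂ KK Ω] {x : Fin 6 → Ω}
    (hx : Gen X x) (H : Herm KK) (hdX : NSq Ω H.pen.d) {w : I8 → Ω} (hw : w ∈ H.pen.W Ω)
    (hL : pL w ≠ 0) (hU : pU w ≠ 0) (hnd : ND H.pen.S (pU w)) {θ : Fin 6 → KK} (hθ : θ ≠ 0)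
    (hθw : vK θ ⬝ᵥ pU w = 0)
    (htop : ∀ (T : IntermediateField KK Ω) (c : Ω), c ≠ 0 → (∀ i, c * pU w i ∈ T) → T = ⊤)
    (h : SameTwist H.pen (hd (D.map (algebraMap ℂ KK)) c)) :
    Pool.Agent.P28.Rational X.F := by
  obtain ⟨_, _, _, _, _, hB, _⟩ := id hD
  have hdD : NSq Ω ((D.map (algebraMap ℂ KK)).s2 c) := hx.nsq hn hirr (s2_nsq D hB hli hc)
  have hdX0 : H.pen.d ≠ 0 := fun h0 => hdX.ne (by rw [h0, map_zero])
  have hdD0 : (hd (D.map (algebraMap ℂ KK)) c).d ≠ 0 := fun h0 => hdD.ne (by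
    change (D.map (algebraMap ℂ KK)).s2 c = 0 at h0
    rw [h0, map_zero])
  have hHX : IsHer H.pen := isHer_herm _
  have hHD : IsHer (hd (D.map (algebraMap ℂ KK)) c) := isHer_hd _ _
  obtain ⟨M, _, _, e, n, F₁, F₂, J, hM, he, hn0, hNm, hJ, hJW⟩ := main hHX hHD hdX0 hdD0 h
  obtain ⟨ξ, hξ, hξw⟩ := lift_herm H hM F₁ he hn0 hNm hdX hw hL hU
  have hP1 : (F₁.pen n).IsPen := Fr.isPen hHX hdX0 hM F₁ n
  have hd1 : NSq Ω (F₁.pen n).d := hdX
  have hU1 : pU (Sum.elim ξ (pU w) : I8 → Ω) = pU w := rfl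
  have hL1 : pL (Sum.elim ξ (pU w) : I8 → Ω) = ξ := rfl
  have hnd1 : ND (F₁.pen n).S (pU (Sum.elim ξ (pU w) : I8 → Ω)) := hnd
  refine asm2 X.F_hom hirr hx.x0 hx.ker hx.top hP1 hd1 hξw (by rw [hL1]; exact hξ) hnd1 hθ
    (by rw [hU1]; exact hθw) ?_ D hB hc hdD (hN_gen X hn hirr D hD hli hc Ω x hx)
    (H₂ := F₂.pen n) rfl rfl ?_ hJ (hJW Ω)
  · rintro T ⟨c', hc', hT⟩ i
    have h1 := htop T c' hc' fun i => hT (Sum.inr i)
    rw [h1]
    trivial
  · intro w hw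
    have h1 : ∀ j, bl ((hd (D.map (algebraMap ℂ KK)) c).Q j) (pU w) (pU w) = 0 := by
      intro j
      rw [← F₂.pen_Q n j]
      exact hw.1 j
    have h2 := h1 0
    have h3 := h1 1
    rw [hd_Q0, map_map_dat] at h2
    rw [hd_Q1, map_map_dat] at h3
    exact ⟨h2, h3⟩

/-- **The theorem.** A cubic whose pencil of hermitian forms has the same invariants as the pencil
of a type O datum in general position is rational. -/
theorem same_rational (X : Cub ℂ) (hn : X.NonDeg) (hirr : Irreducible X.F) (D : Dat ℂ)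
    (hD : GSN.Good D) (hli : LinearIndependent ℂ ![D.B, D.E, 1, D.N]) {c : Fin 2 → KK}
    (hc : IntermediateField.adjoin ℂ (Set.range c) = ⊤)
    (h : SameTwist X.pen (hd (D.map (algebraMap ℂ KK)) c)) :
    Pool.Agent.P28.Rational X.F := by
  obtain ⟨Ω, _, _, _, _, x, hx⟩ := exists_gen hn hirr
  obtain ⟨w, hw, -, hL, hU, hnd, ⟨θ, hθ, hθw⟩, htop⟩ := hx.partX hn.a0
  exact same_herm X hn hirr D hD hli hc hx ((X.map (algebraMap ℂ KK)).herm sK tK)
    (hx.nsq_dX hn hirr) hw hL hU hnd hθ hθw htop h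

/-- **The theorem for the node pencil.** -/
theorem same_rational2 (X : Cub ℂ) (hn : X.NonDeg) (hirr : Irreducible X.F)
    (hD2 : ¬ IsSquare X.D2) (D : Dat ℂ)
    (hD : GSN.Good D) (hli : LinearIndependent ℂ ![D.B, D.E, 1, D.N]) {c : Fin 2 → KK}
    (hc : IntermediateField.adjoin ℂ (Set.range c) = ⊤)
    (h : SameTwist X.pen2 (hd (D.map (algebraMap ℂ KK)) c)) :
    Pool.Agent.P28.Rational X.F := by
  obtain ⟨Ω, _, _, _, _, x, hx⟩ := exists_gen hn hirr
  have hD20 : X.D2 ≠ 0 := fun h0 => hD2 (by rw [h0]; exact IsSquare.zero)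
  have hnd := hx.nd2 hn.a0 hD20
  have h5 : (Pi.single 5 1 : Fin 6 → KK) ≠ 0 := by
    intro h
    have := congrFun h 5
    rw [Pi.single_eq_same, Pi.zero_apply] at this
    exact one_ne_zero this
  have h5w : vK (Pi.single 5 1 : Fin 6 → KK) ⬝ᵥ pU (Sum.elim
      (((X.map (algebraMap ℂ KK)).herm2 sK tK).xi (X.u2 x)) (X.u2 x) : I8 → Ω) = 0 := by
    change vK (Pi.single 5 1 : Fin 6 → KK) ⬝ᵥ X.u2 x = 0
    rw [dotProduct, Fin.sum_univ_six]
    have e : ∀ i : Fin 6, i ≠ 5 → (vK (Pi.single 5 1 : Fin 6 → KK) : Fin 6 → Ω) i = 0 := by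
      intro i hi
      change algebraMap KK Ω ((Pi.single 5 1 : Fin 6 → KK) i) = 0
      rw [Pi.single_eq_of_ne hi, map_zero]
    rw [e 0 (by decide), e 1 (by decide), e 2 (by decide), e 3 (by decide), e 4 (by decide)]
    have e5 : X.u2 x 5 = 0 := rfl
    rw [e5]
    ring
  refine same_herm X hn hirr D hD hli hc hx ((X.map (algebraMap ℂ KK)).herm2 sK tK)
    (hx.nsq_d2 hn hirr hD2) (w := Sum.elim
      (((X.map (algebraMap ℂ KK)).herm2 sK tK).xi (X.u2 x)) (X.u2 x))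
    (Herm.mem_W _ (fun j => (hx.pt hn.a0).iso2 j) rfl (hx.x5_ne hn.a0))
    (fun h => hx.xi2_ne hn hD20 (congrFun h 0))
    (fun h => hx.x5_ne hn.a0 (congrFun h 2)) hnd h5 h5w
    (fun T c hc hT => hx.top_of2 hn.a0 hD20 T hc hT) h

end Pool.Agent.GSF
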