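import Pool.Agent.GSF.FinD
import Pool.Agent.GSF.FDefs

/-!
# GSF: the final theorem in the terms of `FDefs`

The definitions of `FDefs` are compared with those of the library: a pencil `GSH.Pen` gives a pencil
`TK.Pencil` (`toPencil`), and `cub_pencil`, `dat_pencil` say that the two pencils are those of the
library. `final`: the theorem.
-/

set_option autoImplicit false

noncomputable section

namespace Pool.Agent.TK

open MvPolynomial Matrix

/-! ### Pencils -/

section Bridge

variable {K : Type} [Field K]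

/-- the quadratic form of a matrix -/
def pol6 (A : Matrix (Fin 6) (Fin 6) K) : MvPolynomial (Fin 6) K :=
  ∑ i, MvPolynomial.X i * ∑ j, C (A i j) * MvPolynomial.X j

/-- a pencil of the library as a pencil -/
def toPencil (H : GSH.Pen K) : Pencil K := ⟨H.d, fun j => pol6 (H.Q j)⟩

variable {M : Type} [Field M] [Algebra K M]

theorem aeval_pol6 (A : Matrix (Fin 6) (Fin 6) K) (v : Fin 6 → M) :
    aeval v (pol6 A) = GSH.bl A v v := by
  simp only [pol6, map_sum, map_mul, aeval_X, algHom_C, GSH.bl, dotProduct, mulVec, GSH.mK,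
    Matrix.map_apply]

theorem pderiv_pol6 (A : Matrix (Fin 6) (Fin 6) K) (v : Fin 6 → M) (i : Fin 6) :
    aeval v (pderiv i (pol6 A)) = (GSH.mK (A + Aᵀ) *ᵥ v) i := by
  have h : pderiv i (pol6 A) = ∑ j, C (A i j) * MvPolynomial.X j +
      ∑ j, MvPolynomial.X j * C (A j i) := by
    unfold pol6
    rw [map_sum]
    have h1 : ∀ a : Fin 6, pderiv i (MvPolynomial.X a * ∑ j, C (A a j) * MvPolynomial.X j) =
        MvPolynomial.X a * C (A a i) +
          (if a = i then ∑ j, C (A a j) * MvPolynomial.X j else 0) := by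
      intro a
      rw [Derivation.leibniz, map_sum, pderiv_X, smul_eq_mul, smul_eq_mul]
      congr 1
      · congr 1
        have h2 : ∀ j : Fin 6, pderiv i (C (A a j) * MvPolynomial.X j) =
            if j = i then C (A a j) else 0 := by
          intro j
          rw [Derivation.leibniz, pderiv_X, pderiv_C, smul_zero, add_zero, smul_eq_mul,
            Pi.single_apply, mul_ite, mul_one, mul_zero]
        rw [Finset.sum_congr rfl fun j _ => h2 j, Finset.sum_ite_eq' Finset.univ i,
          if_pos (Finset.mem_univ i)]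
      · rw [Pi.single_apply, mul_ite, mul_one, mul_zero]
    rw [Finset.sum_congr rfl fun a _ => h1 a, Finset.sum_add_distrib,
      Finset.sum_ite_eq' Finset.univ i, if_pos (Finset.mem_univ i), add_comm]
  rw [h]
  simp only [map_add, map_sum, map_mul, aeval_X, algHom_C, dotProduct, mulVec, GSH.mK,
    Matrix.map_apply, Matrix.add_apply, Matrix.transpose_apply, add_mul, Finset.sum_add_distrib]
  congr 1
  exact Finset.sum_congr rfl fun j _ => mul_comm _ _

/-- eigenvectors of the pencil as eigenvectors of the pencil of the library -/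
def Pencil.Eig.to {H : GSH.Pen K} (E : (toPencil H).Eig M) : GSQ.Eig H M where
  m := E.m
  v := E.v
  gen := E.gen
  eig := by
    funext i
    have h := E.eig i
    change aeval E.v (pderiv i (pol6 (H.Q 1))) = E.m * aeval E.v (pderiv i (pol6 (H.Q 0))) at h
    rw [pderiv_pol6, pderiv_pol6] at h
    exact h
  ne := by
    have h := E.ne
    change aeval E.v (pol6 (H.Q 0)) ≠ 0 at h
    rw [aeval_pol6] at h
    exact h

theorem Pencil.Eig.to_c {H : GSH.Pen K} (E : (toPencil H).Eig M) : E.to.c = E.c := by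
  have h : aeval E.v ((toPencil H).Q 0) = GSH.bl (H.Q 0) E.v E.v := aeval_pol6 _ _
  unfold GSQ.Eig.c GSQ.Eig.e Pencil.Eig.c Pencil.Eig.e
  rw [h]
  rfl

theorem sameTwist_of {H₁ H₂ : GSH.Pen K} (h : SameTwist (toPencil H₁) (toPencil H₂)) :
    GSQ.SameTwist H₁ H₂ := by
  obtain ⟨M, _, _, hM, E₁, E₂, hE⟩ := h
  refine ⟨M, inferInstance, inferInstance, hM, E₁.to, E₂.to, ?_⟩
  rw [E₁.to_c, E₂.to_c]
  exact hE

end Bridge

/-! ### Cubic fourfolds -/

/-- the cubic as a cubic of the library -/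
def Cub.to {R : Type} (X : Cub R) : GSX.Cub R := ⟨X.a, X.b⟩

theorem Cub.to_F (X : Cub ℂ) : X.to.F = X.F := by
  unfold GSX.Cub.F GSX.cubF GSX.Cub.A GSX.Cub.B Cub.F
  rw [det_fin_two, det_fin_two]
  simp only [Matrix.of_apply, Matrix.cons_val', Matrix.cons_val_zero, Matrix.cons_val_one,
    Matrix.cons_val_fin_one]
  unfold GSX.lin lin Cub.to
  ring

theorem h_eq {K R : Type} [Field K] [CommRing R] (f : K →+* R) (X : Cub K) (s t : K)
    (j : Fin 2) (u : Fin 6 → R) : (X.map f).h (f s) (f t) j u =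
      ∑ i, u i * ∑ k, f ((X.to.herm s t).pen.Q j i k) * u k := by
  have h2 : f 2 = 2 := map_ofNat f 2
  have hc : ∀ k i, (X.map f).c (f s) (f t) k i = f (X.to.c s t k i) := by
    intro k i
    fin_cases i <;> simp [Cub.c, GSX.Cub.c, Cub.map, Cub.to, h2]
  have hm : ∀ i, (X.map f).m (f s) (f t) j i = f (X.to.m s t j i) := by
    intro i
    fin_cases j <;> fin_cases i <;> simp [Cub.m, GSX.Cub.m, hc, h2]
  have hg : ∀ k, (X.map f).g (f s) (f t) j k = f (X.to.g s t (X.to.m s t j) k) := by
    intro k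
    simp [Cub.g, GSX.Cub.g, GSX.Cub.tr, hc, hm, h2]
  unfold Cub.h
  simp only [hm, hg]
  simp [Fin.sum_univ_six, GSX.Herm.pen, GSX.Herm.E, GSX.Herm.F, GSX.Cub.herm, GSX.Cub.hp,
    GSX.Cub.hq, h2]
  ring

/-- the pencil of the cubic -/
theorem cub_pencil (X : Cub ℂ) : X.pencil = toPencil X.to.pen := by
  have h : ∀ j, X.pencil.Q j = (toPencil X.to.pen).Q j := by
    intro j
    exact h_eq (C : K →+* K6) (X.map (algebraMap ℂ K)) (var 0) (var 1) j MvPolynomial.X
  have h' : X.pencil.Q = (toPencil X.to.pen).Q := funext h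
  unfold toPencil
  rw [← show (toPencil X.to.pen).Q = fun j => pol6 (X.to.pen.Q j) from rfl, ← h']
  rfl

/-! ### Data -/

/-- the datum as a datum of the library -/
def Dat.to {R : Type} (D : Dat R) : GSR.Dat R := ⟨D.B, D.N, D.E, D.γ, D.δ, D.t⟩

theorem Dat.to_coord {R : Type} (D : Dat R) : GSN.coord D.to = D.coord := by
  funext i
  rcases i with ⟨a, i, j⟩ | ⟨a, i⟩ | ⟨i, j⟩ <;> rfl

/-- the pencil of the datum -/
theorem dat_pencil (D : Dat ℂ) (c : Fin 2 → K) :
    D.pencil c = toPencil (GSD.hd (D.to.map (algebraMap ℂ K)) c) := by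
  have hK : ∀ v : Fin 6 → K, ((D.to.map (algebraMap ℂ K)).map
      (C : K →+* K6)).K (fun i => C (c i)) (fun i => C (v i)) =
        fun i => C ((D.to.map (algebraMap ℂ K)).K c v i) := fun v => GSR.Dat.map_K C _ c v
  have h0 : (D.pencil c).Q 0 = pol6 ((GSD.hd (D.to.map (algebraMap ℂ K)) c).Q 0) := by
    refine Eq.trans (b := GSR.w MvPolynomial.X (((D.to.map (algebraMap ℂ K)).map
      (C : K →+* K6)).K (fun i => C (c i)) MvPolynomial.X)) rfl ?_
    refine (GSD.bil_sum (GSD.wL.compl₂ (GSD.KL ((D.to.map (algebraMap ℂ K)).map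
      (C : K →+* K6)) (fun i => C (c i)))) MvPolynomial.X MvPolynomial.X).trans ?_
    refine Finset.sum_congr rfl fun i _ => congrArg (fun z => MvPolynomial.X i * z) ?_
    refine Finset.sum_congr rfl fun j _ => congrArg (fun z => z * MvPolynomial.X j) ?_
    change GSR.w (Pi.single i 1) (((D.to.map (algebraMap ℂ K)).map
      (C : K →+* K6)).K (fun i => C (c i)) (Pi.single j 1)) =
      C (GSR.w (Pi.single i 1) ((D.to.map (algebraMap ℂ K)).K c (Pi.single j 1)))
    rw [← GSD.map_single C j, ← GSD.map_single C i, hK, GSR.map_w]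
  have h1 : (D.pencil c).Q 1 = pol6 ((GSD.hd (D.to.map (algebraMap ℂ K)) c).Q 1) := by
    refine Eq.trans (b := ((D.to.map (algebraMap ℂ K)).map (C : K →+* K6)).tau
      (fun i => C (c i)) MvPolynomial.X (((D.to.map (algebraMap ℂ K)).map
      (C : K →+* K6)).K (fun i => C (c i)) MvPolynomial.X)) rfl ?_
    refine (GSD.bil_sum ((GSD.tauL ((D.to.map (algebraMap ℂ K)).map
      (C : K →+* K6)) (fun i => C (c i))).compl₂ (GSD.KL ((D.to.map
      (algebraMap ℂ K)).map (C : K →+* K6)) (fun i => C (c i))))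
      MvPolynomial.X MvPolynomial.X).trans ?_
    refine Finset.sum_congr rfl fun i _ => congrArg (fun z => MvPolynomial.X i * z) ?_
    refine Finset.sum_congr rfl fun j _ => congrArg (fun z => z * MvPolynomial.X j) ?_
    change ((D.to.map (algebraMap ℂ K)).map (C : K →+* K6)).tau
      (fun i => C (c i)) (Pi.single i 1) (((D.to.map (algebraMap ℂ K)).map
      (C : K →+* K6)).K (fun i => C (c i)) (Pi.single j 1)) =
      C ((D.to.map (algebraMap ℂ K)).tau c (Pi.single i 1)
        ((D.to.map (algebraMap ℂ K)).K c (Pi.single j 1)))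
    rw [← GSD.map_single C j, ← GSD.map_single C i, hK, GSR.Dat.map_tau]
  have h' : (D.pencil c).Q = fun j => pol6 ((GSD.hd (D.to.map (algebraMap ℂ K)) c).Q j) := by
    funext j
    revert j
    exact Fin.forall_fin_two.2 ⟨h0, h1⟩
  unfold toPencil
  rw [← h']
  rfl

/-- **The theorem.** -/
theorem final : ∃ Δ : MvPolynomial Idx ℂ, Δ ≠ 0 ∧
    ∀ (X : Cub ℂ) (D : Dat ℂ) (c : Fin 2 → K), X.NonDeg → Irreducible X.F →
      eval D.coord Δ ≠ 0 → IntermediateField.adjoin ℂ (Set.range c) = ⊤ →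
      SameTwist X.pencil (D.pencil c) → Pool.Agent.P28.Rational X.F := by
  obtain ⟨Δ, hΔ, h⟩ := GSF.exists_same_rational
  refine ⟨Δ, hΔ, fun X D c hn hirr hD hc hS => ?_⟩
  rw [cub_pencil, dat_pencil] at hS
  rw [← X.to_F] at hirr ⊢
  exact h X.to D.to c ⟨hn.det, hn.a0, hn.b0⟩ hirr hD hc (sameTwist_of hS)

end Pool.Agent.TK
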