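import Pool.Agent.GSF.Final
import Pool.Agent.GSN.Delta

/-!
# GSF: the final theorem outside a hypersurface of data

`GSF.final` with the conditions on the datum `D` replaced by the nonvanishing of one nonzero
polynomial `Δ` in the coordinates of `D` (`GSN.exists_Delta`).
-/

set_option autoImplicit false

noncomputable section

namespace Pool.Agent.GSF

open MvPolynomial GSR GSX

/-- **The theorem**, for the data outside a hypersurface. -/
theorem final_Delta : ∃ Δ : MvPolynomial GSN.Idx ℂ, Δ ≠ 0 ∧
    ∀ (X : Cub ℂ) (D : Dat ℂ) (c : Fin 2 → KK), X.NonDeg → Irreducible X.F →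
      eval (GSN.coord D) Δ ≠ 0 → IntermediateField.adjoin ℂ (Set.range c) = ⊤ →
      SameTwist (cubPencil X) (datPencil D c) → Pool.Agent.P28.Rational X.F := by
  obtain ⟨Δ, h0, hΔ⟩ := GSN.exists_Delta
  refine ⟨Δ, h0, ?_⟩
  intro X D c hn hirr hD hc h
  obtain ⟨h1, h2⟩ := hΔ D hD
  exact final X hn hirr D h1 h2 hc h

end Pool.Agent.GSF
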