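import Pool.Agent.GSX.GDefs
import Pool.Agent.GSD.HD

/-!
# GSF: the hypothesis of the J-version of the final theorem
-/

set_option autoImplicit false

namespace Pool.Agent.GSF

open MvPolynomial Matrix GSH GSR GSD GSX

/-- The hypothesis (H): the matrix `J` over `ℂ(s, t)` is invertible and maps the cone of the pencil
`H` over `ℂ(s, t)` (without the points `(ξ, 0)`) into the cone of the type O datum `D` with the
parameters `c`. -/
def Linked (H : Pen KK) (D : Dat ℂ) (c : Fin 2 → KK) (J : Matrix I8 I8 KK) : Prop :=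
  IsUnit J.det ∧ ∀ (Ω : Type) [Field Ω] [Algebra KK Ω], ∀ w ∈ H.W Ω, pU w ≠ 0 →
    mK J *ᵥ w ∈ WD (D.map (algebraMap ℂ KK)) c Ω

end Pool.Agent.GSF
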